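import Pool.Agent.helper63.NU.Defs4
import Pool.Agent.helper86.NU.R2b
import Pool.Agent.helper80.NU.B4

set_option autoImplicit false
set_option linter.all false

/-! Module M3a: pull-back of weights by biholomorphic maps. -/

open MeasureTheory Filter Topology Set
open scoped ContDiff Manifold Matrix ENNReal ComplexOrder

noncomputable section

namespace Pool.Agent.helper63.NU

variable {n : ℕ} {M M' : Type*} [TopologicalSpace M] [ChartedSpace (E n) M]
  [IsManifold 𝓘(ℂ, E n) ω M] [TopologicalSpace M'] [ChartedSpace (E n) M']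
  [IsManifold 𝓘(ℂ, E n) ω M'] {φ : Fam n M ℝ}

namespace M3aux

open R2aux

theorem det_eqDm (τ : E n → E n) (y : E n) : (fderiv ℂ τ y).det = (Dm τ y).det := by
  show LinearMap.det _ = _
  rw [← LinearMap.det_toMatrix']
  rfl

/-- chain rule for the determinant -/
theorem det_comp {τ σ : E n → E n} {y : E n} (hτ : DifferentiableAt ℂ τ y)
    (hσ : DifferentiableAt ℂ σ (τ y)) :
    (fderiv ℂ (fun z => σ (τ z)) y).det = (fderiv ℂ σ (τ y)).det * (fderiv ℂ τ y).det := by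
  have h : fderiv ℂ (fun z => σ (τ z)) y = (fderiv ℂ σ (τ y)).comp (fderiv ℂ τ y) :=
    fderiv_comp y hσ hτ
  rw [h]
  show LinearMap.det _ = LinearMap.det _ * LinearMap.det _
  rw [← LinearMap.det_comp]
  rfl

theorem det_id {τ : E n → E n} {y : E n} (h : τ =ᶠ[𝓝 y] fun z => z) :
    (fderiv ℂ τ y).det = 1 := by
  rw [h.fderiv_eq]
  have h2 : fderiv ℂ (fun z : E n => z) y = ContinuousLinearMap.id ℂ (E n) := fderiv_id'
  rw [h2]
  show LinearMap.det _ = 1
  simp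

/-- the map in the charts -/
def tm (Φ : M' → M) (e' : Ch n M') (e : Ch n M) (z : E n) : E n := e (Φ (e'.symm z))

theorem tm_mem {Φ : M' → M} {e : Ch n M} {e' : Ch n M'} {x : M'}
    (hx : x ∈ e'.source) (hx' : Φ x ∈ e.source) :
    e' x ∈ e'.target ∩ e'.symm ⁻¹' (Φ ⁻¹' e.source) :=
  ⟨e'.map_source hx, by
    show Φ (e'.symm (e' x)) ∈ e.source
    rwa [e'.left_inv hx]⟩

theorem tm_analytic (Φ : Diffeomorph 𝓘(ℂ, E n) 𝓘(ℂ, E n) M' M ω) {e : Ch n M}
    (he : e ∈ atlas (E n) M) {e' : Ch n M'} (he' : e' ∈ atlas (E n) M') {z : E n}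
    (hz : z ∈ e'.target ∩ e'.symm ⁻¹' (Φ ⁻¹' e.source)) : AnalyticAt ℂ (tm Φ e' e) z :=
  ph_analytic Φ.contMDiff_toFun he' he z hz

theorem tm_det_ne (Φ : Diffeomorph 𝓘(ℂ, E n) 𝓘(ℂ, E n) M' M ω) {e : Ch n M}
    (he : e ∈ atlas (E n) M) {e' : Ch n M'} (he' : e' ∈ atlas (E n) M') {z : E n}
    (hz : z ∈ e'.target ∩ e'.symm ⁻¹' (Φ ⁻¹' e.source)) :
    (fderiv ℂ (tm Φ e' e) z).det ≠ 0 := by
  have hx' : Φ (e'.symm z) ∈ e.source := hz.2
  have hx : e'.symm z ∈ e'.source := e'.map_target hz.1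
  have h1 := (tm_analytic Φ he he' hz).differentiableAt
  have hw : tm Φ e' e z ∈ e.target ∩ e.symm ⁻¹' (Φ.symm ⁻¹' e'.source) := by
    refine ⟨e.map_source hx', ?_⟩
    show Φ.symm (e.symm (e (Φ (e'.symm z)))) ∈ e'.source
    rw [e.left_inv hx', Φ.symm_apply_apply]
    exact hx
  have h2 := (tm_analytic Φ.symm he' he hw).differentiableAt
  have h3 := det_comp h1 h2
  have h4 : (fun w => tm Φ.symm e e' (tm Φ e' e w)) =ᶠ[𝓝 z] fun w => w := by
    filter_upwards [(isOpen_ph Φ.continuous e' e).mem_nhds hz] with w hw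
    show e' (Φ.symm (e.symm (e (Φ (e'.symm w))))) = w
    have hw2 : Φ (e'.symm w) ∈ e.source := hw.2
    rw [e.left_inv hw2, Φ.symm_apply_apply, e'.right_inv hw.1]
  rw [det_id h4] at h3
  intro h0
  rw [h0, mul_zero] at h3
  exact one_ne_zero h3

/-- change of the chart in the target -/
theorem tm_det_left (Φ : Diffeomorph 𝓘(ℂ, E n) 𝓘(ℂ, E n) M' M ω) {e e1 : Ch n M}
    (he : e ∈ atlas (E n) M) (he1 : e1 ∈ atlas (E n) M) {e' : Ch n M'}
    (he' : e' ∈ atlas (E n) M') {z : E n}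
    (hz : z ∈ e'.target ∩ e'.symm ⁻¹' (Φ ⁻¹' e.source)) (hz1 : Φ (e'.symm z) ∈ e1.source) :
    (fderiv ℂ (tm Φ e' e1) z).det = jac e e1 (e (Φ (e'.symm z))) *
      (fderiv ℂ (tm Φ e' e) z).det := by
  have hx' : Φ (e'.symm z) ∈ e.source := hz.2
  have h1 := (tm_analytic Φ he he' hz).differentiableAt
  have h2 := trans_differentiableAt he he1 hx' hz1
  have h3 := det_comp (σ := fun y => e1 (e.symm y)) h1 h2
  have h4 : tm Φ e' e1 =ᶠ[𝓝 z] fun w => e1 (e.symm (tm Φ e' e w)) := by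
    filter_upwards [(isOpen_ph Φ.continuous e' e).mem_nhds hz] with w hw
    show e1 (Φ (e'.symm w)) = e1 (e.symm (e (Φ (e'.symm w))))
    have hw2 : Φ (e'.symm w) ∈ e.source := hw.2
    rw [e.left_inv hw2]
  rw [h4.fderiv_eq, h3]
  rfl

/-- change of the chart in the source -/
theorem tm_det_right (Φ : Diffeomorph 𝓘(ℂ, E n) 𝓘(ℂ, E n) M' M ω) {e : Ch n M}
    (he : e ∈ atlas (E n) M) {e' e1 : Ch n M'}
    (he' : e' ∈ atlas (E n) M') (he1 : e1 ∈ atlas (E n) M') {x : M'} (hx : x ∈ e'.source)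
    (hx1 : x ∈ e1.source) (hx' : Φ x ∈ e.source) :
    (fderiv ℂ (tm Φ e' e) (e' x)).det = (fderiv ℂ (tm Φ e1 e) (e1 x)).det *
      jac e' e1 (e' x) := by
  have h1 := trans_differentiableAt he' he1 hx hx1
  have h5 : e1 (e'.symm (e' x)) = e1 x := by rw [e'.left_inv hx]
  have h2 := (tm_analytic Φ he he1 (tm_mem hx1 hx')).differentiableAt
  have h3 := det_comp (τ := fun y => e1 (e'.symm y)) (σ := tm Φ e1 e) h1 (by rw [h5]; exact h2)
  have h4 : tm Φ e' e =ᶠ[𝓝 (e' x)] fun w => tm Φ e1 e (e1 (e'.symm w)) := by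
    filter_upwards [(isOpen_trans e' e1).mem_nhds (mem_trans_of_mem hx hx1)] with w hw
    show e (Φ (e'.symm w)) = e (Φ (e1.symm (e1 (e'.symm w))))
    rw [e1.left_inv hw.2]
  rw [h4.fderiv_eq, h3, h5]
  rfl

end M3aux

open M3aux

theorem pull_eq (Φ : Diffeomorph 𝓘(ℂ, E n) 𝓘(ℂ, E n) M' M ω) (hφ : IsWeight 1 φ) {e : Ch n M}
    (he : e ∈ atlas (E n) M) {e' : Ch n M'} (he' : e' ∈ atlas (E n) M') {x : M'}
    (hx : x ∈ e'.source) (hx' : Φ x ∈ e.source) :
    (fderiv ℂ (fun z => e (Φ (e'.symm z))) (e' x)).det ≠ 0 ∧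
    pull Φ φ e' (e' x) = φ e (e (Φ x))
      - Real.log (‖(fderiv ℂ (fun z => e (Φ (e'.symm z))) (e' x)).det‖ ^ 2) := by
  have hz := tm_mem (Φ := Φ) hx hx'
  have hne := tm_det_ne Φ he he' hz
  refine ⟨hne, ?_⟩
  have hc : chartAt (E n) (Φ x) ∈ atlas (E n) M := chart_mem_atlas _ _
  have hxc : Φ x ∈ (chartAt (E n) (Φ x)).source := mem_chart_source _ _
  have h1 := hφ.trans e he _ hc (Φ x) ⟨hx', hxc⟩
  have h2 := tm_det_left Φ he hc he' hz (by rw [e'.left_inv hx]; exact hxc)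
  rw [e'.left_inv hx] at h2
  have hJ := jac_ne_zero he hc hx' hxc
  have h3 : pull Φ φ e' (e' x) = φ (chartAt (E n) (Φ x)) (chartAt (E n) (Φ x) (Φ x))
      - Real.log (‖(fderiv ℂ (tm Φ e' (chartAt (E n) (Φ x))) (e' x)).det‖ ^ 2) := by
    unfold pull
    rw [e'.left_inv hx]
    rfl
  rw [h3, h1, h2, norm_mul, mul_pow, Real.log_mul (by positivity) (by
    have : 0 < ‖(fderiv ℂ (tm Φ e' e) (e' x)).det‖ := norm_pos_iff.2 hne
    positivity)]
  show _ = _ - Real.log (‖(fderiv ℂ (tm Φ e' e) (e' x)).det‖ ^ 2)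
  push_cast
  ring

namespace M3aux

theorem pull_eq' (Φ : Diffeomorph 𝓘(ℂ, E n) 𝓘(ℂ, E n) M' M ω) (hφ : IsWeight 1 φ) {e : Ch n M}
    (he : e ∈ atlas (E n) M) {e' : Ch n M'} (he' : e' ∈ atlas (E n) M') {z : E n}
    (hz : z ∈ e'.target ∩ e'.symm ⁻¹' (Φ ⁻¹' e.source)) :
    pull Φ φ e' z = φ e (tm Φ e' e z)
      - Real.log (‖(fderiv ℂ (tm Φ e' e) z).det‖ ^ 2) := by
  have h := (pull_eq Φ hφ he he' (e'.map_target hz.1) hz.2).2
  rw [e'.right_inv hz.1] at h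
  exact h

theorem logdet_contDiff (Φ : Diffeomorph 𝓘(ℂ, E n) 𝓘(ℂ, E n) M' M ω) {e : Ch n M}
    (he : e ∈ atlas (E n) M) {e' : Ch n M'} (he' : e' ∈ atlas (E n) M') {z : E n}
    (hz : z ∈ e'.target ∩ e'.symm ⁻¹' (Φ ⁻¹' e.source)) :
    ContDiffAt ℝ ∞ (fun z => Real.log (‖(fderiv ℂ (tm Φ e' e) z).det‖ ^ 2)) z := by
  have h1 : AnalyticAt ℂ (fun z => (fderiv ℂ (tm Φ e' e) z).det) z := by
    have := R2aux.Dm_det_analytic (tm_analytic Φ he he' hz)
    simpa only [det_eqDm] using this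
  have h2 : ContDiffAt ℝ ∞ (fun z => (fderiv ℂ (tm Φ e' e) z).det) z :=
    (h1.contDiffAt (n := ∞)).restrict_scalars ℝ
  have h3 : ContDiffAt ℝ ∞ (fun z => ‖(fderiv ℂ (tm Φ e' e) z).det‖ ^ 2) z := h2.norm_sq ℝ
  have h4 := tm_det_ne Φ he he' hz
  exact h3.log (by positivity)

theorem comp_contDiff (Φ : Diffeomorph 𝓘(ℂ, E n) 𝓘(ℂ, E n) M' M ω) (hφ : IsWeight 1 φ)
    {e : Ch n M} (he : e ∈ atlas (E n) M) {e' : Ch n M'} (he' : e' ∈ atlas (E n) M') {z : E n}
    (hz : z ∈ e'.target ∩ e'.symm ⁻¹' (Φ ⁻¹' e.source)) :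
    ContDiffAt ℝ ∞ (fun z => φ e (tm Φ e' e z)) z := by
  have h1 : ContDiffAt ℝ ∞ (tm Φ e' e) z :=
    ((tm_analytic Φ he he' hz).contDiffAt (n := ∞)).restrict_scalars ℝ
  have h2 : ContDiffAt ℝ ∞ (φ e) (tm Φ e' e z) :=
    (hφ.smooth e he).contDiffAt (e.open_target.mem_nhds (e.map_source hz.2))
  exact ContDiffAt.comp z h2 h1

theorem pull_near (Φ : Diffeomorph 𝓘(ℂ, E n) 𝓘(ℂ, E n) M' M ω) (hφ : IsWeight 1 φ) {e : Ch n M}
    (he : e ∈ atlas (E n) M) {e' : Ch n M'} (he' : e' ∈ atlas (E n) M') {z : E n}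
    (hz : z ∈ e'.target ∩ e'.symm ⁻¹' (Φ ⁻¹' e.source)) :
    pull Φ φ e' =ᶠ[𝓝 z] fun z => φ e (tm Φ e' e z)
      - Real.log (‖(fderiv ℂ (tm Φ e' e) z).det‖ ^ 2) := by
  filter_upwards [(R2aux.isOpen_ph Φ.continuous e' e).mem_nhds hz] with w hw
  exact pull_eq' Φ hφ he he' hw

theorem lev_pull (Φ : Diffeomorph 𝓘(ℂ, E n) 𝓘(ℂ, E n) M' M ω) (hφ : IsWeight 1 φ) {e : Ch n M}
    (he : e ∈ atlas (E n) M) {e' : Ch n M'} (he' : e' ∈ atlas (E n) M') {z : E n}
    (hz : z ∈ e'.target ∩ e'.symm ⁻¹' (Φ ⁻¹' e.source)) (j k : Fin n) :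
    lev (pull Φ φ e') z j k = ∑ i, ∑ l, fderiv ℂ (tm Φ e' e) z (Pi.single j 1) i *
      lev (φ e) (tm Φ e' e z) i l *
      (starRingEnd ℂ) (fderiv ℂ (tm Φ e' e) z (Pi.single k 1) l) := by
  have h1 := comp_contDiff Φ hφ he he' hz
  have h2 := logdet_contDiff Φ he he' hz
  have h3 : AnalyticAt ℂ (fun z => (fderiv ℂ (tm Φ e' e) z).det) z := by
    have := R2aux.Dm_det_analytic (tm_analytic Φ he he' hz)
    simpa only [det_eqDm] using this
  have h4 : ContDiffAt ℝ ∞ (φ e) (tm Φ e' e z) :=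
    (hφ.smooth e he).contDiffAt (e.open_target.mem_nhds (e.map_source hz.2))
  rw [lev_congr (pull_near Φ hφ he he' hz), lev_sub (h1.of_le R2aux.le2) (h2.of_le R2aux.le2),
    lev_log_normSq h3 (tm_det_ne Φ he he' hz), sub_zero,
    lev_comp (τ := tm Φ e' e) (tm_analytic Φ he he' hz) (h4.of_le R2aux.le2)]

theorem lev_pull_mat (Φ : Diffeomorph 𝓘(ℂ, E n) 𝓘(ℂ, E n) M' M ω) (hφ : IsWeight 1 φ) {e : Ch n M}
    (he : e ∈ atlas (E n) M) {e' : Ch n M'} (he' : e' ∈ atlas (E n) M') {z : E n}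
    (hz : z ∈ e'.target ∩ e'.symm ⁻¹' (Φ ⁻¹' e.source)) :
    lev (pull Φ φ e') z = (R2aux.Dm (tm Φ e' e) z)ᵀ * lev (φ e) (tm Φ e' e z) *
      R2aux.cj (R2aux.Dm (tm Φ e' e) z) := by
  ext j k
  rw [lev_pull Φ hφ he he' hz]
  simp only [Matrix.mul_apply, Matrix.transpose_apply, R2aux.Dm, R2aux.cj, Matrix.map_apply,
    Matrix.of_apply, Finset.sum_mul]
  rw [Finset.sum_comm]

theorem posDef_comp {H D : Matrix (Fin n) (Fin n) ℂ} (hH : H.PosDef) (hD : D.det ≠ 0) :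
    (Dᵀ * H * R2aux.cj D).PosDef := by
  have h1 : Dᵀ = (R2aux.cj D)ᴴ := by
    ext i j
    simp [R2aux.cj, Matrix.conjTranspose_apply]
  rw [h1]
  have h2 : (R2aux.cj D).det ≠ 0 := by
    rw [R2aux.det_cj]
    exact (map_ne_zero (starRingEnd ℂ)).2 hD
  have h3 : Function.Injective (R2aux.cj D).mulVec :=
    Matrix.mulVec_injective_of_isUnit ((Matrix.isUnit_iff_isUnit_det _).2 h2.isUnit)
  exact hH.conjTranspose_mul_mul_same h3

end M3aux

theorem M3aux.mem_self (Φ : M' → M) (e' : Ch n M') (z : E n) (hz : z ∈ e'.target) :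
    z ∈ e'.target ∩ e'.symm ⁻¹' (Φ ⁻¹' (chartAt (E n) (Φ (e'.symm z))).source) :=
  ⟨hz, mem_chart_source _ _⟩

theorem M3aux.pull_isWeight (Φ : Diffeomorph 𝓘(ℂ, E n) 𝓘(ℂ, E n) M' M ω) (hφ : IsWeight 1 φ) :
    IsWeight 1 (pull Φ φ) := by
  have hmem := fun (e' : Ch n M') (z : E n) => M3aux.mem_self Φ e' z
  refine ⟨fun e' he' z hz => ?_, fun e' he' e1 he1 x hx => ?_⟩
  · have hc : chartAt (E n) (Φ (e'.symm z)) ∈ atlas (E n) M := chart_mem_atlas _ _
    have h1 := comp_contDiff Φ hφ hc he' (hmem e' z hz)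
    have h2 := logdet_contDiff Φ hc he' (hmem e' z hz)
    exact ((h1.sub h2).congr_of_eventuallyEq
      (pull_near Φ hφ hc he' (hmem e' z hz))).contDiffWithinAt
  · have hc : chartAt (E n) (Φ x) ∈ atlas (E n) M := chart_mem_atlas _ _
    have hxc : Φ x ∈ (chartAt (E n) (Φ x)).source := mem_chart_source _ _
    obtain ⟨h1, h2⟩ := pull_eq Φ hφ hc he' hx.1 hxc
    obtain ⟨h3, h4⟩ := pull_eq Φ hφ hc he1 hx.2 hxc
    have h5 := tm_det_right Φ hc he' he1 hx.1 hx.2 hxc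
    have h5' : (fderiv ℂ (fun z => (chartAt (E n) (Φ x)) (Φ (e'.symm z))) (e' x)).det =
      (fderiv ℂ (fun z => (chartAt (E n) (Φ x)) (Φ (e1.symm z))) (e1 x)).det *
        jac e' e1 (e' x) := h5
    have hJ := jac_ne_zero he' he1 hx.1 hx.2
    rw [h2, h4, h5', norm_mul, mul_pow, Real.log_mul (by positivity) (by positivity)]
    push_cast
    ring

theorem pull_isPos (Φ : Diffeomorph 𝓘(ℂ, E n) 𝓘(ℂ, E n) M' M ω) (hφ : IsPos 1 φ) :
    IsPos 1 (pull Φ φ) := by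
  refine ⟨M3aux.pull_isWeight Φ hφ.toIsWeight, fun e' he' z hz => ?_⟩
  have hc : chartAt (E n) (Φ (e'.symm z)) ∈ atlas (E n) M := chart_mem_atlas _ _
  rw [lev_pull_mat Φ hφ.toIsWeight hc he' (M3aux.mem_self Φ e' z hz)]
  refine posDef_comp (hφ.pos _ hc _ ((chartAt (E n) _).map_source (mem_chart_source _ _))) ?_
  rw [← det_eqDm]
  exact tm_det_ne Φ hc he' (M3aux.mem_self Φ e' z hz)

theorem pull_lev (Φ : Diffeomorph 𝓘(ℂ, E n) 𝓘(ℂ, E n) M' M ω) (hφ : IsWeight 1 φ) {e : Ch n M}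
    (he : e ∈ atlas (E n) M) {e' : Ch n M'} (he' : e' ∈ atlas (E n) M') {x : M'}
    (hx : x ∈ e'.source) (hx' : Φ x ∈ e.source) (v w : E n) :
    ∑ j, ∑ k, lev (pull Φ φ e') (e' x) j k * v j * (starRingEnd ℂ) (w k)
      = ∑ j, ∑ k, lev (φ e) (e (Φ x)) j k *
        (fderiv ℂ (fun z => e (Φ (e'.symm z))) (e' x) v) j *
        (starRingEnd ℂ) ((fderiv ℂ (fun z => e (Φ (e'.symm z))) (e' x) w) k) := by
  have hz := tm_mem (Φ := Φ) hx hx'
  have hL : ∀ (u : E n) (j : Fin n), fderiv ℂ (fun z => e (Φ (e'.symm z))) (e' x) u j =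
      ∑ i, u i * fderiv ℂ (tm Φ e' e) (e' x) (Pi.single i 1) j := by
    intro u j
    have h1 : u = ∑ i, u i • (Pi.single i 1 : E n) := by
      rw [← Finset.univ_sum_single u]
      refine Finset.sum_congr rfl fun i _ => ?_
      rw [Finset.univ_sum_single u]
      ext a
      by_cases ha : a = i
      · subst ha; simp
      · simp [Pi.single_eq_of_ne ha]
    conv_lhs => rw [h1]
    rw [map_sum, Finset.sum_apply]
    refine Finset.sum_congr rfl fun i _ => ?_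
    rw [map_smul]
    rfl
  have h3 : tm Φ e' e (e' x) = e (Φ x) := by
    show e (Φ (e'.symm (e' x))) = _
    rw [e'.left_inv hx]
  simp only [lev_pull Φ hφ he he' hz, h3, hL, map_sum, map_mul, Finset.sum_mul, Finset.mul_sum]
  calc ∑ j, ∑ k, ∑ i, ∑ l, fderiv ℂ (tm Φ e' e) (e' x) (Pi.single j 1) i *
        lev (φ e) (e (Φ x)) i l * (starRingEnd ℂ) (fderiv ℂ (tm Φ e' e) (e' x) (Pi.single k 1) l) *
        v j * (starRingEnd ℂ) (w k)
      = ∑ i, ∑ j, ∑ k, ∑ l, fderiv ℂ (tm Φ e' e) (e' x) (Pi.single j 1) i *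
        lev (φ e) (e (Φ x)) i l * (starRingEnd ℂ) (fderiv ℂ (tm Φ e' e) (e' x) (Pi.single k 1) l) *
        v j * (starRingEnd ℂ) (w k) := by
        rw [Finset.sum_comm]
        rw [show (∑ k, ∑ j, ∑ i, ∑ l, fderiv ℂ (tm Φ e' e) (e' x) (Pi.single j 1) i *
          lev (φ e) (e (Φ x)) i l *
          (starRingEnd ℂ) (fderiv ℂ (tm Φ e' e) (e' x) (Pi.single k 1) l) *
          v j * (starRingEnd ℂ) (w k)) = ∑ k, ∑ i, ∑ j, ∑ l,
          fderiv ℂ (tm Φ e' e) (e' x) (Pi.single j 1) i *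
          lev (φ e) (e (Φ x)) i l *
          (starRingEnd ℂ) (fderiv ℂ (tm Φ e' e) (e' x) (Pi.single k 1) l) *
          v j * (starRingEnd ℂ) (w k) from Finset.sum_congr rfl fun k _ => Finset.sum_comm]
        rw [Finset.sum_comm]
        exact Finset.sum_congr rfl fun i _ => Finset.sum_comm
    _ = _ := by
        refine Finset.sum_congr rfl fun i _ => ?_
        rw [show (∑ j, ∑ k, ∑ l, fderiv ℂ (tm Φ e' e) (e' x) (Pi.single j 1) i *
          lev (φ e) (e (Φ x)) i l *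
          (starRingEnd ℂ) (fderiv ℂ (tm Φ e' e) (e' x) (Pi.single k 1) l) *
          v j * (starRingEnd ℂ) (w k)) = ∑ j, ∑ l, ∑ k,
          fderiv ℂ (tm Φ e' e) (e' x) (Pi.single j 1) i *
          lev (φ e) (e (Φ x)) i l *
          (starRingEnd ℂ) (fderiv ℂ (tm Φ e' e) (e' x) (Pi.single k 1) l) *
          v j * (starRingEnd ℂ) (w k) from Finset.sum_congr rfl fun j _ => Finset.sum_comm]
        rw [Finset.sum_comm]
        refine Finset.sum_congr rfl fun l _ => ?_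
        rw [Finset.sum_comm]
        refine Finset.sum_congr rfl fun k _ => Finset.sum_congr rfl fun j _ => ?_
        ring

theorem pull_dl (Φ : Diffeomorph 𝓘(ℂ, E n) 𝓘(ℂ, E n) M' M ω) (hφ : IsPos 1 φ) (x : M') :
    dl (pull Φ φ) x = dl φ (Φ x) := by
  set e' := chartAt (E n) x with he'
  set e := chartAt (E n) (Φ x) with he
  have he'a : e' ∈ atlas (E n) M' := chart_mem_atlas _ _
  have hea : e ∈ atlas (E n) M := chart_mem_atlas _ _
  have hx : x ∈ e'.source := mem_chart_source _ _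
  have hx' : Φ x ∈ e.source := mem_chart_source _ _
  have hz := tm_mem (Φ := Φ) hx hx'
  obtain ⟨h1, h2⟩ := pull_eq Φ hφ.toIsWeight hea he'a hx hx'
  have h3 := lev_pull_mat Φ hφ.toIsWeight hea he'a hz
  have h4 : ((1 : ℝ) : ℂ) • lev (pull Φ φ e') (e' x) =
      (R2aux.Dm (tm Φ e' e) (e' x))ᵀ * lev (φ e) (tm Φ e' e (e' x)) *
      R2aux.cj (R2aux.Dm (tm Φ e' e) (e' x)) := by
    rw [Complex.ofReal_one, one_smul]; exact h3
  have h5 := R2aux.det_eq h4
  have h6 : tm Φ e' e (e' x) = e (Φ x) := by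
    show e (Φ (e'.symm (e' x))) = _
    rw [e'.left_inv hx]
  rw [one_pow, one_mul, h6] at h5
  have h7 : (R2aux.Dm (tm Φ e' e) (e' x)).det =
      (fderiv ℂ (fun z => e (Φ (e'.symm z))) (e' x)).det := (det_eqDm _ _).symm
  rw [h7] at h5
  have h8 : 0 < ‖(fderiv ℂ (fun z => e (Φ (e'.symm z))) (e' x)).det‖ ^ 2 := by positivity
  show (lev (pull Φ φ e') (e' x)).det.re * Real.exp (pull Φ φ e' (e' x)) =
    (lev (φ e) (e (Φ x))).det.re * Real.exp (φ e (e (Φ x)))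
  rw [h2, h5, Real.exp_sub, Real.exp_log h8]
  field_simp

namespace M3aux

variable [MeasurableSpace M] [BorelSpace M] [MeasurableSpace M'] [BorelSpace M']

/-- the measure `μ` has density `e^{-φ_e}` in the chart `e` -/
def HasD (μ : Measure M) (φ : Fam n M ℝ) (e : Ch n M) : Prop :=
  ∀ f : M → ℝ≥0∞, Measurable f → ∫⁻ x in e.source, f x ∂μ
      = ∫⁻ y in e.target, f (e.symm y) * ENNReal.ofReal (Real.exp (-φ e y))

theorem meas_chart (e : Ch n M) {A : Set M} (hA : MeasurableSet A) :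
    MeasurableSet (e.target ∩ e.symm ⁻¹' A) := by
  have h1 : e.target ∩ e.symm ⁻¹' A = Subtype.val '' (b3g e ⁻¹' A) := by
    ext y
    constructor
    · rintro ⟨hy, hyA⟩
      exact ⟨⟨y, hy⟩, hyA, rfl⟩
    · rintro ⟨⟨z, hz⟩, hzA, rfl⟩
      exact ⟨hz, hzA⟩
  rw [h1]
  exact (MeasurableEmbedding.subtype_coe e.open_target.measurableSet).measurableSet_image.2
    ((b3g_emb e).measurable hA)

theorem HasD.apply {μ : Measure M} {e : Ch n M} (hv : HasD μ φ e) {A : Set M}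
    (hA : MeasurableSet A) (hAe : A ⊆ e.source) :
    μ A = ∫⁻ y in e.target ∩ e.symm ⁻¹' A, ENNReal.ofReal (Real.exp (-φ e y)) := by
  have h1 := hv (A.indicator 1) (measurable_one.indicator hA)
  rw [lintegral_indicator_one hA, Measure.restrict_apply hA, inter_eq_left.2 hAe] at h1
  rw [h1]
  have hB := meas_chart e hA
  have h2 : ∀ y ∈ e.target, A.indicator (1 : M → ℝ≥0∞) (e.symm y) *
      ENNReal.ofReal (Real.exp (-φ e y)) =
      (e.target ∩ e.symm ⁻¹' A).indicator (fun y => ENNReal.ofReal (Real.exp (-φ e y))) y := by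
    intro y hy
    by_cases hyA : e.symm y ∈ A
    · rw [indicator_of_mem hyA, indicator_of_mem (show y ∈ e.target ∩ e.symm ⁻¹' A from ⟨hy, hyA⟩),
        Pi.one_apply, one_mul]
    · rw [indicator_of_notMem hyA, indicator_of_notMem (fun h => hyA h.2), zero_mul]
  rw [setLIntegral_congr_fun e.open_target.measurableSet h2, setLIntegral_indicator hB]
  congr 2
  rw [inter_assoc, inter_comm _ e.target, ← inter_assoc, inter_self]

/-- the measure with density `e^{-φ_e}` on the chart `e` -/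
def rho (φ : Fam n M ℝ) (e : Ch n M) : Measure M :=
  ((b3n φ e).comap (Subtype.val : e.target → E n)).map (b3g e)

theorem rho_hasD (hφ : IsWeight 1 φ) {e : Ch n M} (he : e ∈ atlas (E n) M) :
    HasD (rho φ e) φ e := by
  intro f hf
  have hT := e.open_target.measurableSet
  unfold rho
  rw [(b3g_emb e).restrict_map, (b3g_emb e).lintegral_map]
  have h0 : b3g e ⁻¹' e.source = univ := by
    ext y
    simp only [mem_preimage, mem_univ, iff_true]
    exact e.map_target y.2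
  rw [h0, Measure.restrict_univ]
  have h2 : ∫⁻ y : e.target, f (b3g e y) ∂((b3n φ e).comap Subtype.val)
      = ∫⁻ y in e.target, f (e.symm y) ∂(b3n φ e) := by
    rw [← lintegral_subtype_comap hT]
    rfl
  rw [h2, b3n_restrict]
  unfold b3n
  have hm : AEMeasurable (fun y => f (e.symm y)) (volume.restrict e.target) := by
    have h3 : AEMeasurable e.symm (volume.restrict e.target) :=
      e.continuousOn_symm.aemeasurable hT
    exact hf.comp_aemeasurable h3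
  rw [lintegral_withDensity_eq_lintegral_mul₀ (b3d_aem hφ he) hm]
  refine lintegral_congr fun y => ?_
  simp only [Pi.mul_apply, b3d]
  rw [mul_comm]

/-- change of variables on a piece -/
theorem piece (Φ : Diffeomorph 𝓘(ℂ, E n) 𝓘(ℂ, E n) M' M ω) (hφ : IsWeight 1 φ)
    {μ : Measure M} {e : Ch n M} (he : e ∈ atlas (E n) M)
    (hμ : HasD μ φ e) {e' : Ch n M'} (he' : e' ∈ atlas (E n) M')
    {A : Set M'} (hA : MeasurableSet A) (hAe' : A ⊆ e'.source) (hAe : ∀ x ∈ A, Φ x ∈ e.source) :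
    (μ.map Φ.symm) A =
      ∫⁻ y in e'.target ∩ e'.symm ⁻¹' A, ENNReal.ofReal (Real.exp (-pull Φ φ e' y)) := by
  have hm : Measurable (Φ.symm : M → M') := Φ.symm.continuous.measurable
  have hA2 : MeasurableSet ((Φ.symm : M → M') ⁻¹' A) := hm hA
  have hsub : (Φ.symm : M → M') ⁻¹' A ⊆ e.source := by
    intro x hx
    have := hAe _ hx
    rwa [Φ.apply_symm_apply] at this
  rw [Measure.map_apply hm hA, hμ.apply hA2 hsub]
  set τ : E n → E n := tm Φ e' e with hτdef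
  set B : Set (E n) := e'.target ∩ e'.symm ⁻¹' A with hBdef
  have hBsub : B ⊆ e'.target ∩ e'.symm ⁻¹' (Φ ⁻¹' e.source) := fun z hz => ⟨hz.1, hAe _ hz.2⟩
  have himg : e.target ∩ e.symm ⁻¹' ((Φ.symm : M → M') ⁻¹' A) = τ '' B := by
    ext y
    constructor
    · rintro ⟨hy, hyA⟩
      have hyA' : Φ.symm (e.symm y) ∈ A := hyA
      have hs := hAe' hyA'
      refine ⟨e' (Φ.symm (e.symm y)), ⟨e'.map_source hs, ?_⟩, ?_⟩
      · show e'.symm (e' (Φ.symm (e.symm y))) ∈ A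
        rw [e'.left_inv hs]; exact hyA'
      · show e (Φ (e'.symm (e' (Φ.symm (e.symm y))))) = y
        rw [e'.left_inv hs, Φ.apply_symm_apply, e.right_inv hy]
    · rintro ⟨z, hz, rfl⟩
      have hz2 : Φ (e'.symm z) ∈ e.source := hAe _ hz.2
      refine ⟨e.map_source hz2, ?_⟩
      show Φ.symm (e.symm (e (Φ (e'.symm z)))) ∈ A
      rw [e.left_inv hz2, Φ.symm_apply_apply]
      exact hz.2
  have hinj : InjOn τ B := by
    intro z hz w hw hzw
    have h1 : Φ (e'.symm z) = Φ (e'.symm w) := e.injOn (hAe _ hz.2) (hAe _ hw.2) hzw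
    have h2 : e'.symm z = e'.symm w := Φ.injective h1
    exact e'.symm.injOn hz.1 hw.1 h2
  have hder : ∀ z ∈ B, HasFDerivWithinAt τ ((fderiv ℂ τ z).restrictScalars ℝ) B z := by
    intro z hz
    have h1 := (tm_analytic Φ he he' (hBsub hz)).differentiableAt
    exact (h1.hasFDerivAt.restrictScalars ℝ).hasFDerivWithinAt
  rw [himg, lintegral_image_eq_lintegral_abs_det_fderiv_mul volume (meas_chart e' hA) hder hinj]
  refine setLIntegral_congr_fun (meas_chart e' hA) fun z hz => ?_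
  have h1 := pull_eq' Φ hφ he he' (hBsub hz)
  have h2 := tm_det_ne Φ he he' (hBsub hz)
  show ENNReal.ofReal |((fderiv ℂ τ z).restrictScalars ℝ).det| *
      ENNReal.ofReal (Real.exp (-φ e (τ z))) = ENNReal.ofReal (Real.exp (-pull Φ φ e' z))
  rw [R2aux.det_real, ← ENNReal.ofReal_mul (by positivity)]
  congr 1
  have h3 : 0 < ‖(fderiv ℂ τ z).det‖ ^ 2 := by positivity
  rw [h1, neg_sub, sub_eq_add_neg, Real.exp_add, Real.exp_log h3]

end M3aux

theorem pull_dens [MeasurableSpace M] [BorelSpace M] [MeasurableSpace M'] [BorelSpace M']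
    {μ : Measure M} (Φ : Diffeomorph 𝓘(ℂ, E n) 𝓘(ℂ, E n) M' M ω) (hφ : IsWeight 1 φ)
    (hμ : IsDens μ φ) : IsDens (μ.map Φ.symm) (pull Φ φ) := by
  intro e' he' f hf
  have hρ := rho_hasD (M3aux.pull_isWeight Φ hφ) he'
  have key : (μ.map Φ.symm).restrict e'.source = (rho (pull Φ φ) e').restrict e'.source := by
    set V : E n → Set (E n) := fun y =>
      e'.target ∩ e'.symm ⁻¹' (Φ ⁻¹' (chartAt (E n) (Φ (e'.symm y))).source) with hV
    obtain ⟨t, htc, hts, ht⟩ := (HereditarilyLindelofSpace.isLindelof e'.target).elim_nhds_subcover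
      V (fun y hy => (R2aux.isOpen_ph Φ.continuous e' _).mem_nhds (M3aux.mem_self Φ e' y hy))
    set W : E n → Set M' := fun y =>
      e'.source ∩ Φ ⁻¹' (chartAt (E n) (Φ (e'.symm y))).source with hW
    have hWo : ∀ y, MeasurableSet (W y) := fun y =>
      (e'.open_source.inter ((chartAt (E n) _).open_source.preimage Φ.continuous)).measurableSet
    have hcov : e'.source = ⋃ y ∈ t, W y := by
      apply Subset.antisymm
      · intro x hx
        obtain ⟨y, hyt, hy⟩ := mem_iUnion₂.1 (ht (e'.map_source hx))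
        refine mem_iUnion₂.2 ⟨y, hyt, hx, ?_⟩
        have h1 : Φ (e'.symm (e' x)) ∈ (chartAt (E n) (Φ (e'.symm y))).source := hy.2
        rw [e'.left_inv hx] at h1
        exact h1
      · intro x hx
        obtain ⟨y, hyt, hy⟩ := mem_iUnion₂.1 hx
        exact hy.1
    rw [hcov]
    refine (Measure.restrict_biUnion_congr htc).2 fun y hy => ?_
    ext A hA
    rw [Measure.restrict_apply hA, Measure.restrict_apply hA,
      piece Φ hφ (chart_mem_atlas _ (Φ (e'.symm y))) (hμ _ (chart_mem_atlas _ _)) he'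
        (hA.inter (hWo y)) (fun x hx => hx.2.1) (fun x hx => hx.2.2),
      hρ.apply (hA.inter (hWo y)) (fun x hx => hx.2.1)]
  rw [key]
  exact hρ f hf

end Pool.Agent.helper63.NU
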